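import Mathlib
import Pool.Agent.H362R2.CM.Final
import Pool.Agent.H362R2.CM.QLim

/-! One class. -/

set_option autoImplicit false

namespace Pool.Agent.H362R2.R1

open Finset

/-- the members of `T` are simultaneously prime infinitely often -/
def Good (T : Finset (ℤ × ℤ)) : Prop :=
  {n : ℕ | ∀ f ∈ T, 0 < f.1 * (n : ℤ) + f.2 ∧ Prime (f.1 * (n : ℤ) + f.2)}.Infinite

open Classical in
theorem cls (k : ℕ) (hk : 1 ≤ k) (ε : ℝ) (hε : 0 < ε) : ∃ n0 z0 : ℕ, ∀ z : ℕ, z0 ≤ z → ∀ (V : Finset (ℤ × ℤ)) (n : ℕ),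
    (∀ f ∈ V, 0 < f.1 ∧ IsCoprime f.1 f.2) → (∀ f ∈ V, ∀ p ∈ (z + 1).primesBelow, ¬ (p : ℤ) ∣ f.1 * (n : ℤ) + f.2) →
    n0 ≤ V.card →
    ((1 / 4 : ℝ) ^ k - ε) * (V.card.choose (k + 1)) ≤ ((V.powersetCard (k + 1)).filter Good).card := by
  obtain ⟨m, hm1, hdens⟩ := CM.dens4 k hk ε hε
  obtain ⟨K, hK1, hq⟩ := CM.quarter (4 * m)
  obtain ⟨δ, hδ, n0, hd⟩ := hdens K hK1
  refine ⟨n0, 4 * m * K, fun z hz V n hV hVn hcard => ?_⟩
  refine hd (ℤ × ℤ) V Good ∅ hcard (by simp; positivity) ?_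
  intro A hAinj hAV _
  obtain ⟨S, c, hS, hinf⟩ := hq (fun g i => (A (g, i)).1) (fun g i => (A (g, i)).2) (fun g i => (hV _ (hAV _)).1)
    (by
      intro x y hxy
      apply hAinj
      simp only [Prod.mk.injEq] at hxy
      exact Prod.ext hxy.1 hxy.2)
    (by
      intro p hp
      by_cases hpz : p ≤ z
      · exact ⟨n, fun g i => hVn _ (hAV _) p (Nat.mem_primesBelow.2 ⟨by omega, hp⟩)⟩
      · obtain ⟨n', hn'⟩ := H361R2.exists_avoid' (m := 4 * m * K) hp (by omega)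
          (fun x => (A (finProdFinEquiv.symm x)).1)
          (fun x => (A (finProdFinEquiv.symm x)).2) (by
            rintro x ⟨h1, h2⟩
            exact (Nat.prime_iff_prime_int.1 hp).not_isUnit ((hV _ (hAV (finProdFinEquiv.symm x))).2.isUnit_of_dvd' h1 h2))
        refine ⟨n', fun g i => ?_⟩
        have h1 := hn' (finProdFinEquiv (g, i))
        simpa only [Equiv.symm_apply_apply] using h1)
  refine ⟨S, c, by omega, ?_⟩
  intro U hU _
  apply hinf.mono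
  intro n' hn' f hf
  obtain ⟨g, hg, hgf⟩ := (@Finset.mem_image _ _ (fun a b => Classical.propDecidable (a = b)) _ _ _).1 (hU hf)
  rw [← hgf]
  exact hn' g hg

end Pool.Agent.H362R2.R1
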