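import Mathlib

/-! Definitions for families of integer polynomials. -/

set_option autoImplicit false

namespace Pool.Agent.H362R2.R1

open Finset Polynomial

/-- number of residues mod `p` at which the product of the members of `F` vanishes -/
noncomputable def omega (F : Finset ℤ[X]) (p : ℕ) : ℕ :=
  ((range p).filter (fun n : ℕ => (p : ℤ) ∣ ∏ f ∈ F, f.eval (n : ℤ))).card

/-- the constant `C_F` -/
noncomputable def CF (F : Finset ℤ[X]) : ℝ :=
  ∏' p : Nat.Primes, (1 - (omega F p : ℝ) / (p : ℕ)) / (1 - 1 / ((p : ℕ) : ℝ)) ^ F.card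

end Pool.Agent.H362R2.R1
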