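import Mathlib
import Pool.Agent.H362R2.R1.Mas
import Pool.Agent.H362R2.R1.PDefs

/-! Translation to polynomials. -/

set_option autoImplicit false

namespace Pool.Agent.H362R2.R1

open Finset Polynomial

/-- the pair of coefficients -/
def phi (f : ℤ[X]) : ℤ × ℤ := (f.coeff 1, f.coeff 0)

/-- linear, irreducible, positive leading coefficient -/
def Lin (f : ℤ[X]) : Prop := f.natDegree = 1 ∧ 0 < f.leadingCoeff ∧ Irreducible f

lemma Lin.form {f : ℤ[X]} (h : Lin f) : f = C (f.coeff 1) * X + C (f.coeff 0) :=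
  Polynomial.eq_X_add_C_of_natDegree_le_one h.1.le

lemma Lin.eval {f : ℤ[X]} (h : Lin f) (n : ℤ) : f.eval n = (phi f).1 * n + (phi f).2 := by
  conv_lhs => rw [h.form]
  simp [phi]

lemma Lin.pos {f : ℤ[X]} (h : Lin f) : 0 < (phi f).1 := by
  have h1 := h.2.1
  unfold Polynomial.leadingCoeff at h1
  rw [h.1] at h1
  exact h1

lemma Lin.cop {f : ℤ[X]} (h : Lin f) : IsCoprime (phi f).1 (phi f).2 := by
  have hprim := h.2.2.isPrimitive (by rw [h.1]; exact one_ne_zero)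
  rw [Int.isCoprime_iff_gcd_eq_one]
  have h1 : C ((Int.gcd (f.coeff 1) (f.coeff 0) : ℕ) : ℤ) ∣ f := by
    rw [Polynomial.C_dvd_iff_dvd_coeff]
    intro i
    match i with
    | 0 => exact Int.gcd_dvd_right _ _
    | 1 => exact Int.gcd_dvd_left _ _
    | (j + 2) =>
      have h5 : f.coeff (j + 2) = 0 := Polynomial.coeff_eq_zero_of_natDegree_lt (by rw [h.1]; omega)
      rw [h5]
      exact dvd_zero _
  have h2 := hprim _ h1
  have h3 := Int.isUnit_iff_natAbs_eq.1 h2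
  simpa [phi] using h3

lemma phi_inj {f g : ℤ[X]} (hf : Lin f) (hg : Lin g) (h : phi f = phi g) : f = g := by
  rw [hf.form, hg.form]
  unfold phi at h
  rw [Prod.mk.injEq] at h
  rw [h.1, h.2]

open Classical in
lemma om_image (F : Finset ℤ[X]) (hF : ∀ f ∈ F, Lin f) {p : ℕ} (hp : p.Prime) : om (F.image phi) p = omega F p := by
  unfold om omega
  congr 1
  apply filter_congr
  intro n _
  rw [Prime.dvd_finsetProd_iff (Nat.prime_iff_prime_int.1 hp)]
  constructor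
  · rintro ⟨g, hg, hd⟩
    obtain ⟨f, hf, rfl⟩ := Finset.mem_image.1 hg
    exact ⟨f, hf, by rw [(hF f hf).eval]; exact hd⟩
  · rintro ⟨f, hf, hd⟩
    exact ⟨phi f, mem_image_of_mem _ hf, by rw [← (hF f hf).eval]; exact hd⟩

open Classical in
lemma card_phi (F : Finset ℤ[X]) (hF : ∀ f ∈ F, Lin f) : (F.image phi).card = F.card :=
  card_image_of_injOn fun f hf g hg h => phi_inj (hF f hf) (hF g hg) h

open Classical in
lemma sum_phi (𝓕 : Finset ℤ[X]) (hF : ∀ f ∈ 𝓕, Lin f) (r : ℕ) (g : Finset ℤ[X] → ℝ) (g' : Finset (ℤ × ℤ) → ℝ)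
    (P : Finset ℤ[X] → Prop) (P' : Finset (ℤ × ℤ) → Prop) (hg : ∀ F ⊆ 𝓕, g F = g' (F.image phi))
    (hP : ∀ F ⊆ 𝓕, (P F ↔ P' (F.image phi))) :
    ∑ F ∈ (𝓕.powersetCard r).filter P, g F = ∑ T ∈ ((𝓕.image phi).powersetCard r).filter P', g' T := by
  apply sum_nbij (fun F => F.image phi)
  · intro F hFm
    rw [mem_filter, mem_powersetCard] at hFm ⊢
    refine ⟨⟨image_subset_image hFm.1.1, ?_⟩, (hP F hFm.1.1).1 hFm.2⟩
    rw [card_phi F (fun f hf => hF f (hFm.1.1 hf)), hFm.1.2]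
  · intro F hFm G hGm h
    rw [mem_coe, mem_filter, mem_powersetCard] at hFm hGm
    have key : ∀ A B : Finset ℤ[X], A ⊆ 𝓕 → B ⊆ 𝓕 → A.image phi = B.image phi → A ⊆ B := by
      intro A B hA hB hAB f hf
      have h1 : phi f ∈ B.image phi := hAB ▸ mem_image_of_mem _ hf
      obtain ⟨f', hf', he⟩ := Finset.mem_image.1 h1
      rw [← phi_inj (hF f' (hB hf')) (hF f (hA hf)) he]
      exact hf'
    exact Subset.antisymm (key F G hFm.1.1 hGm.1.1 h) (key G F hGm.1.1 hFm.1.1 h.symm)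
  · intro T hT
    rw [mem_coe, mem_filter, mem_powersetCard] at hT
    have himg : (𝓕.filter (fun f => phi f ∈ T)).image phi = T := by
      ext x
      constructor
      · intro hx
        obtain ⟨f, hf, rfl⟩ := Finset.mem_image.1 hx
        exact (mem_filter.1 hf).2
      · intro hx
        obtain ⟨f, hf, rfl⟩ := Finset.mem_image.1 (hT.1.1 hx)
        exact mem_image_of_mem _ (mem_filter.2 ⟨hf, hx⟩)
    refine ⟨𝓕.filter (fun f => phi f ∈ T), ?_, himg⟩
    rw [mem_coe, mem_filter, mem_powersetCard]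
    refine ⟨⟨filter_subset _ _, ?_⟩, ?_⟩
    · rw [← card_phi (𝓕.filter (fun f => phi f ∈ T)) (fun f hf => hF f (mem_filter.1 hf).1), himg]
      exact hT.1.2
    · rw [hP _ (filter_subset _ _), himg]
      exact hT.2
  · intro F hFm
    rw [mem_filter, mem_powersetCard] at hFm
    exact hg F hFm.1.1

open Classical in
lemma CF_eq (F : Finset ℤ[X]) (hF : ∀ f ∈ F, Lin f) : CF F = BH (F.image phi) := by
  unfold CF BH
  congr 1
  funext p
  unfold lc
  rw [om_image F hF p.2, card_phi F hF]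

open Classical in
theorem CF_hasProd (F : Finset ℤ[X]) (hF : ∀ f ∈ F, Lin f) :
    HasProd (fun p : Nat.Primes => (1 - (omega F p : ℝ) / (p : ℕ)) / (1 - 1 / ((p : ℕ) : ℝ)) ^ F.card) (CF F) := by
  have h1 := BH_hasProd (F.image phi) (by
    intro x hx
    obtain ⟨f, hf, rfl⟩ := Finset.mem_image.1 hx
    exact (hF f hf).pos) (by
    intro x hx
    obtain ⟨f, hf, rfl⟩ := Finset.mem_image.1 hx
    exact (hF f hf).cop)
  rw [CF_eq F hF]
  convert h1 using 2 with p
  unfold lc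
  rw [om_image F hF p.2, card_phi F hF]

lemma BH_pos (T : Finset (ℤ × ℤ)) (h0 : ∀ f ∈ T, 0 < f.1) (hT : ∀ f ∈ T, IsCoprime f.1 f.2)
    (hadm : ∀ p : ℕ, p.Prime → om T p < p) : 0 < BH T := by
  have hs := Real.summable_log_one_add_of_summable (summable_lc T h0 hT)
  have hs' : Summable (fun p : Nat.Primes => Real.log (lc T p)) := by simpa using hs
  have hpos : ∀ p : Nat.Primes, 0 < lc T p := by
    intro p
    unfold lc
    have hp0 : (0:ℝ) < (p : ℕ) := by exact_mod_cast p.2.pos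
    have hp2 : (2:ℝ) ≤ (p : ℕ) := by exact_mod_cast p.2.two_le
    have h1 : (1:ℝ) / (p : ℕ) ≤ 1 / 2 := one_div_le_one_div_of_le (by norm_num) hp2
    apply div_pos
    · rw [sub_pos, div_lt_one hp0]
      exact_mod_cast hadm p p.2
    · exact pow_pos (by linarith) _
  have := Real.rexp_tsum_eq_tprod hpos hs'
  unfold BH
  rw [← this]
  exact Real.exp_pos _

open Classical in
theorem CF_pos (F : Finset ℤ[X]) (hF : ∀ f ∈ F, Lin f) (hadm : ∀ p : ℕ, p.Prime → omega F p < p) : 0 < CF F := by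
  rw [CF_eq F hF]
  apply BH_pos
  · intro x hx
    obtain ⟨f, hf, rfl⟩ := Finset.mem_image.1 hx
    exact (hF f hf).pos
  · intro x hx
    obtain ⟨f, hf, rfl⟩ := Finset.mem_image.1 hx
    exact (hF f hf).cop
  · intro p hp
    rw [om_image F hF hp]
    exact hadm p hp

open Classical in
theorem main_poly (k : ℕ) (hk : 1 ≤ k) (ε : ℝ) (hε : 0 < ε) : ∃ C : ℝ, 0 < C ∧ ∀ (H : ℝ) (𝓕 : Finset ℤ[X]), 3 ≤ H →
    (∀ f ∈ 𝓕, Lin f ∧ ∀ i, |((f.coeff i : ℤ) : ℝ)| ≤ H) →
    C * (1 + Real.log (Real.log H)) ≤ 𝓕.card →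
    (1 - ε) * (𝓕.card.choose (k + 1)) ≤ ∑ F ∈ 𝓕.powersetCard (k + 1), CF F ∧
    ((1 / 4 : ℝ) ^ k - ε) * ∑ F ∈ 𝓕.powersetCard (k + 1), CF F ≤
      ∑ F ∈ (𝓕.powersetCard (k + 1)).filter (fun F => {n : ℕ | ∀ f ∈ F, 0 < f.eval (n : ℤ) ∧ Prime (f.eval (n : ℤ))}.Infinite),
        CF F := by
  obtain ⟨C, hC, h⟩ := main k hk ε hε
  refine ⟨C, hC, fun H 𝓕 hH hF hcard => ?_⟩
  have hLin : ∀ f ∈ 𝓕, Lin f := fun f hf => (hF f hf).1
  have h1 := h H (𝓕.image phi) hH (by
    intro x hx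
    obtain ⟨f, hf, rfl⟩ := Finset.mem_image.1 hx
    exact ⟨(hLin f hf).pos, (hLin f hf).cop, (hF f hf).2 1, (hF f hf).2 0⟩) (by
    rw [card_phi 𝓕 hLin]
    exact hcard)
  rw [card_phi 𝓕 hLin] at h1
  have e1 := sum_phi 𝓕 hLin (k + 1) CF BH (fun _ => True) (fun _ => True)
    (fun F hF' => CF_eq F (fun f hf => hLin f (hF' hf))) (fun _ _ => Iff.rfl)
  simp only [filter_true] at e1
  have e2 := sum_phi 𝓕 hLin (k + 1) CF BH
    (fun F => {n : ℕ | ∀ f ∈ F, 0 < f.eval (n : ℤ) ∧ Prime (f.eval (n : ℤ))}.Infinite) Good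
    (fun F hF' => CF_eq F (fun f hf => hLin f (hF' hf))) (by
      intro F hF'
      unfold Good
      have : {n : ℕ | ∀ f ∈ F, 0 < f.eval (n : ℤ) ∧ Prime (f.eval (n : ℤ))} =
          {n : ℕ | ∀ f ∈ F.image phi, 0 < f.1 * (n : ℤ) + f.2 ∧ Prime (f.1 * (n : ℤ) + f.2)} := by
        ext n
        simp only [Set.mem_ofPred_eq]
        constructor
        · intro h2 x hx
          obtain ⟨f, hf, rfl⟩ := Finset.mem_image.1 hx
          have := h2 f hf
          rw [(hLin f (hF' hf)).eval] at this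
          exact this
        · intro h2 f hf
          rw [(hLin f (hF' hf)).eval]
          exact h2 _ (mem_image_of_mem _ hf)
      rw [this])
  rw [e1, e2]
  exact h1

end Pool.Agent.H362R2.R1
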